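import Pool.Agent.helper64.LP.Lang

/-!
# The Cook-Levin theorem with uniform (coordinate-local) clauses
-/

set_option autoImplicit false

namespace Pool.Agent.helper64.LP

namespace CookLev

open Turing

/-- What the machine does to its tape in one step (a halted machine rewrites the head symbol). -/
inductive Mv (Γ : Type) : Type
  | stay (a : Γ)
  | right
  | left

/-- One step of the machine as a total function of state and head symbol. -/
def nx {Γ Λ : Type} [Inhabited Λ] (M : TM0.Machine Γ Λ) (q : Λ) (a : Γ) : Λ × Mv Γ :=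
  match M q a with
  | none => (q, .stay a)
  | some (q', .write b) => (q', .stay b)
  | some (q', .move .right) => (q', .right)
  | some (q', .move .left) => (q', .left)

/-- The step function that stays put at halted configurations. -/
def sm {Γ Λ : Type} [Inhabited Γ] [Inhabited Λ] (M : TM0.Machine Γ Λ) (cf : TM0.Cfg Γ Λ) :
    TM0.Cfg Γ Λ :=
  (TM0.step M cf).getD cf

/-- The effect of a move on a tape. -/
def mvT {Γ : Type} [Inhabited Γ] (m : Mv Γ) (T : Tape Γ) : Tape Γ :=
  match m with
  | .stay a => T.write a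
  | .right => T.move .right
  | .left => T.move .left

section tape

variable {Γ Λ : Type} [Inhabited Γ] [Inhabited Λ]

/-- symbols to the right of the head, including the head -/
def Rs (T : Tape Γ) (j : ℕ) : Γ := T.right₀.nth j

/-- symbols to the left of the head -/
def Ls (T : Tape Γ) (j : ℕ) : Γ := T.left.nth j

theorem Rs_zero (T : Tape Γ) : Rs T 0 = T.head := by
  obtain ⟨L, R, rfl⟩ := Tape.exists_mk' T
  simp [Rs]

theorem sm_eq (M : TM0.Machine Γ Λ) (q : Λ) (T : Tape Γ) :
    sm M ⟨q, T⟩ = ⟨(nx M q (Rs T 0)).1, mvT (nx M q (Rs T 0)).2 T⟩ := by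
  rw [Rs_zero]
  unfold sm TM0.step nx mvT
  rcases h : M q T.head with _ | ⟨q', (d | b)⟩
  · simp [h, Tape.write_self]
  · cases d <;> simp [h]
  · simp [h]

theorem Rs_stay_zero (T : Tape Γ) (a : Γ) : Rs (mvT (.stay a) T) 0 = a := by
  obtain ⟨L, R, rfl⟩ := Tape.exists_mk' T
  simp [Rs, mvT]

theorem Rs_stay_succ (T : Tape Γ) (a : Γ) (j : ℕ) :
    Rs (mvT (.stay a) T) (j + 1) = Rs T (j + 1) := by
  obtain ⟨L, R, rfl⟩ := Tape.exists_mk' T
  simp [Rs, mvT, ListBlank.nth_succ]

theorem Ls_stay (T : Tape Γ) (a : Γ) (j : ℕ) : Ls (mvT (.stay a) T) j = Ls T j := by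
  obtain ⟨L, R, rfl⟩ := Tape.exists_mk' T
  simp [Ls, mvT]

theorem Rs_right (T : Tape Γ) (j : ℕ) : Rs (mvT .right T) j = Rs T (j + 1) := by
  obtain ⟨L, R, rfl⟩ := Tape.exists_mk' T
  simp [Rs, mvT, ListBlank.nth_succ]

theorem Ls_right_zero (T : Tape Γ) : Ls (mvT .right T) 0 = Rs T 0 := by
  obtain ⟨L, R, rfl⟩ := Tape.exists_mk' T
  simp [Rs, Ls, mvT]

theorem Ls_right_succ (T : Tape Γ) (j : ℕ) : Ls (mvT .right T) (j + 1) = Ls T j := by
  obtain ⟨L, R, rfl⟩ := Tape.exists_mk' T
  simp [Ls, mvT, ListBlank.nth_succ]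

theorem Rs_left_zero (T : Tape Γ) : Rs (mvT .left T) 0 = Ls T 0 := by
  obtain ⟨L, R, rfl⟩ := Tape.exists_mk' T
  simp [Rs, Ls, mvT]

theorem Rs_left_succ (T : Tape Γ) (j : ℕ) : Rs (mvT .left T) (j + 1) = Rs T j := by
  obtain ⟨L, R, rfl⟩ := Tape.exists_mk' T
  simp [Rs, mvT, ListBlank.nth_succ]

theorem Ls_left (T : Tape Γ) (j : ℕ) : Ls (mvT .left T) j = Ls T (j + 1) := by
  obtain ⟨L, R, rfl⟩ := Tape.exists_mk' T
  simp [Ls, mvT, ListBlank.nth_succ]

theorem Ls_init (l : List Γ) (j : ℕ) : Ls (TM0.init (Λ := Λ) l).Tape j = default := by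
  simp [Ls, TM0.init, Tape.mk₁, Tape.mk₂, ListBlank.nth_mk]

theorem Rs_init (l : List Γ) (j : ℕ) : Rs (TM0.init (Λ := Λ) l).Tape j = l.getI j := by
  simp [Rs, TM0.init, Tape.mk₁, Tape.mk₂, ListBlank.nth_mk]

theorem iter_sm_of_run (M : TM0.Machine Γ Λ) (c₀ : TM0.Cfg Γ Λ) (t : ℕ) (cf : TM0.Cfg Γ Λ)
    (h : (fun o : Option (TM0.Cfg Γ Λ) => o.bind (TM0.step M))^[t] (some c₀) = some cf) :
    (sm M)^[t] c₀ = cf := by
  induction t generalizing cf with
  | zero => simpa using h
  | succ t ih =>
    rw [Function.iterate_succ_apply'] at h ⊢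
    rcases h' : (fun o : Option (TM0.Cfg Γ Λ) => o.bind (TM0.step M))^[t] (some c₀) with _ | c'
    · rw [h'] at h
      simp at h
    · rw [h'] at h
      rw [ih c' h']
      simp only [Option.bind_some] at h
      simp [sm, h]

theorem iter_sm_halt (M : TM0.Machine Γ Λ) (cf : TM0.Cfg Γ Λ) (h : TM0.step M cf = none) (k : ℕ) :
    (sm M)^[k] cf = cf := by
  induction k with
  | zero => rfl
  | succ k ih =>
    rw [Function.iterate_succ_apply', ih]
    simp [sm, h]

theorem iter_sm_late (M : TM0.Machine Γ Λ) (c₀ : TM0.Cfg Γ Λ) (t : ℕ) (cf : TM0.Cfg Γ Λ)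
    (h : (fun o : Option (TM0.Cfg Γ Λ) => o.bind (TM0.step M))^[t] (some c₀) = some cf)
    (hh : TM0.step M cf = none) (s : ℕ) (hs : t ≤ s) : (sm M)^[s] c₀ = cf := by
  obtain ⟨k, rfl⟩ := Nat.exists_eq_add_of_le hs
  rw [Nat.add_comm, Function.iterate_add_apply, iter_sm_of_run M c₀ t cf h, iter_sm_halt M cf hh]

end tape

/-- kinds of clauses -/
inductive CK (Γ Λ : Type) : Type
  | iSt : CK Γ Λ
  | iL : CK Γ Λ
  | iIn (b : Bool) : CK Γ Λ
  | iSep : CK Γ Λ
  | iCh : CK Γ Λ
  | iMono : CK Γ Λ
  | iB : CK Γ Λ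
  | tSt (q : Λ) (a : Γ) : CK Γ Λ
  | tHd (q : Λ) (a : Γ) : CK Γ Λ
  | tR (q : Λ) (a b : Γ) : CK Γ Λ
  | tL (q : Λ) (a b : Γ) : CK Γ Λ
  | tLR (q : Λ) (a b : Γ) : CK Γ Λ
  | fin (q : Λ) : CK Γ Λ

/-- an injective code for kinds of clauses -/
def CK.enc {Γ Λ : Type} : CK Γ Λ → Fin 13 × Bool × Option Λ × Option Γ × Option Γ
  | .iSt => (0, false, none, none, none)
  | .iL => (1, false, none, none, none)
  | .iIn b => (2, b, none, none, none)
  | .iSep => (3, false, none, none, none)
  | .iCh => (4, false, none, none, none)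
  | .iMono => (5, false, none, none, none)
  | .iB => (6, false, none, none, none)
  | .tSt q a => (7, false, some q, some a, none)
  | .tHd q a => (8, false, some q, some a, none)
  | .tR q a b => (9, false, some q, some a, some b)
  | .tL q a b => (10, false, some q, some a, some b)
  | .tLR q a b => (11, false, some q, some a, some b)
  | .fin q => (12, false, some q, none, none)

theorem CK.enc_inj {Γ Λ : Type} : Function.Injective (CK.enc (Γ := Γ) (Λ := Λ)) := by
  intro x y h
  cases x <;> cases y <;> simp_all [CK.enc]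

instance {Γ Λ : Type} [Finite Γ] [Finite Λ] : Finite (CK Γ Λ) :=
  Finite.of_injective _ CK.enc_inj

/-- kinds of variables: states, symbols on the right (with head), symbols on the left -/
abbrev VK (Γ Λ : Type) : Type := Λ ⊕ (Bool × Γ)

/-- the negative literal of the state -/
def lS {Γ Λ : Type} (q : Λ) : ULit (VK Γ Λ) := ⟨false, .inl q, .same, .zero⟩
/-- the negative literal of the head symbol -/
def lH {Γ Λ : Type} (a : Γ) : ULit (VK Γ Λ) := ⟨false, .inr (true, a), .same, .zero⟩
/-- literal for a symbol on the right -/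
def lR {Γ Λ : Type} (s : Bool) (a : Γ) (ot oj : Off) : ULit (VK Γ Λ) :=
  ⟨s, .inr (true, a), ot, oj⟩
/-- literal for a symbol on the left -/
def lL {Γ Λ : Type} (s : Bool) (a : Γ) (ot oj : Off) : ULit (VK Γ Λ) :=
  ⟨s, .inr (false, a), ot, oj⟩

section defs

variable {Γ Λ : Type} [Inhabited Γ] [Inhabited Λ]

/-- literals of the clauses -/
def litsOf (M : TM0.Machine Γ Λ) (ι : Bool → Γ) (sep : Γ) : CK Γ Λ → List (ULit (VK Γ Λ))
  | .iSt => [⟨true, .inl default, .same, .zero⟩]
  | .iL => [lL true default .same .same]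
  | .iIn b => [lR true (ι b) .same .same]
  | .iSep => [lR true sep .same .same]
  | .iCh => [lR true (ι true) .same .same, lR true (ι false) .same .same,
      lR true default .same .same]
  | .iMono => [lR false default .same .same, lR true default .same .next]
  | .iB => [lR true default .same .same]
  | .tSt q a => [lS q, lH a, ⟨true, .inl (nx M q a).1, .next, .zero⟩]
  | .tHd q a => [lS q, lH a, match (nx M q a).2 with
      | .stay a' => lR true a' .next .same
      | .right => lL true a .next .same
      | .left => lR true a .next .next]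
  | .tR q a b => match (nx M q a).2 with
      | .stay _ => [lS q, lH a, lR false b .same .same, lR true b .next .same]
      | .right => [lS q, lH a, lR false b .same .next, lR true b .next .same]
      | .left => [lS q, lH a, lR false b .same .same, lR true b .next .next]
  | .tL q a b => match (nx M q a).2 with
      | .stay _ => [lS q, lH a, lL false b .same .same, lL true b .next .same]
      | .right => [lS q, lH a, lL false b .same .same, lL true b .next .next]
      | .left => [lS q, lH a, lL false b .same .next, lL true b .next .same]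
  | .tLR q a b => [lS q, lH a, lL false b .same .zero, lR true b .next .zero]
  | .fin q => [lS q]

/-- where the clauses are present -/
def actOf (M : TM0.Machine Γ Λ) (acc : Λ → Bool) : CK Γ Λ → UPat → Bool
  | .iSt, u => u.t0
  | .iL, u => u.t0
  | .iIn b, u => u.t0 && decide (u.sym = some (some b))
  | .iSep, u => u.t0 && decide (u.sym = some none)
  | .iCh, u => u.t0 && decide (u.sym = none)
  | .iMono, u => u.t0 && decide (u.sym = none) && !u.jl
  | .iB, u => u.t0 && u.jB
  | .tSt _ _, u => !u.tl && u.j0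
  | .tHd _ _, u => !u.tl && u.j0 && !u.jl
  | .tR q a _, u => !u.tl && match (nx M q a).2 with
      | .stay _ => !u.j0
      | .right => !u.jl
      | .left => !u.j0 && !u.jl
  | .tL q a _, u => !u.tl && match (nx M q a).2 with
      | .stay _ => true
      | .right => !u.jl
      | .left => !u.jl
  | .tLR q a _, u => !u.tl && match (nx M q a).2 with
      | .stay _ => false
      | .right => false
      | .left => true
  | .fin q, u => u.tl && !acc q

/-- the uniform CNF of a machine -/
def ucnf [Finite Γ] [Finite Λ] (M : TM0.Machine Γ Λ) (ι : Bool → Γ) (sep : Γ)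
    (acc : Λ → Bool) : UCNF where
  VA := VK Γ Λ
  CL := CK Γ Λ
  finVA := inferInstance
  finCL := inferInstance
  lits := litsOf M ι sep
  act := actOf M acc

end defs


section good

variable {Γ Λ : Type} [Inhabited Γ] [Inhabited Λ]

theorem res_next_ne {N : ℕ} (j : Fin N) (h : ¬ j.val + 1 = N) :
    (resolve .next j).val = j.val + 1 := by
  have : j.val + 1 < N := by have := j.isLt; omega
  simp [resolve, this]

theorem res_zero {N : ℕ} (j : Fin N) : (resolve .zero j).val = 0 := rfl

theorem res_same {N : ℕ} (j : Fin N) : resolve .same j = j := rfl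

/-- a literal at given coordinates -/
def resL {V : Type} {N : ℕ} (t j : Fin N) (l : ULit V) : Bool × V × Fin N × Fin N :=
  (l.sgn, l.var, resolve l.ot t, resolve l.oj j)

theorem goodLits_aux (M : TM0.Machine Γ Λ) (ι : Bool → Γ) (sep : Γ)
    (acc : Λ → Bool) (hι : Function.Injective ι) (hb : ∀ b, ι b ≠ default)
    (w : List Bool) (N B : ℕ) (k : CK Γ Λ) (t j : Fin N)
    (hk : actOf M acc k (upat w N B (t, j)) = true) :
    ((litsOf M ι sep k).map (resL t j)).Nodup ∧
    1 ≤ ((litsOf M ι sep k).map (resL t j)).length ∧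
    ((litsOf M ι sep k).map (resL t j)).length ≤ 4 := by
  have hι' : ι true ≠ ι false := fun h => by simpa using hι h
  cases k with
  | iSt => simp [litsOf]
  | iL => simp [litsOf]
  | iIn b => simp [litsOf]
  | iSep => simp [litsOf]
  | iCh => simp [litsOf, lR, hι', hb, resL]
  | iMono => simp [litsOf, lR, resL]
  | iB => simp [litsOf]
  | tSt q a => simp [litsOf, lS, lH, resL]
  | tHd q a =>
    rcases h : (nx M q a).2 with a' | _ | _ <;> simp [litsOf, lS, lH, lR, lL, h, resL]
  | tR q a b =>
    have e0 : j.val ≠ 0 → (resolve .zero j) ≠ j := fun h h' => h (by rw [← h']; rfl)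
    have e1 : ¬ j.val + 1 = N → (resolve .zero j) ≠ resolve .next j := fun h h' => by
      have := congrArg Fin.val h'
      rw [res_next_ne j h, res_zero] at this
      omega
    rcases h : (nx M q a).2 with a' | _ | _ <;>
      simp_all [litsOf, lS, lH, lR, actOf, upat, res_same, resL]
  | tL q a b =>
    rcases h : (nx M q a).2 with a' | _ | _ <;> simp [litsOf, lS, lH, lL, h, resL]
  | tLR q a b => simp [litsOf, lS, lH, lR, lL, resL]
  | fin q => simp [litsOf]

theorem goodLits [Finite Γ] [Finite Λ] (M : TM0.Machine Γ Λ) (ι : Bool → Γ) (sep : Γ)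
    (acc : Λ → Bool) (hι : Function.Injective ι) (hb : ∀ b, ι b ≠ default)
    (w : List Bool) (N B : ℕ) : GoodLits ((ucnf M ι sep acc).ilits w N B) := by
  rintro ⟨⟨k, t, j⟩, hk⟩
  exact goodLits_aux M ι sep acc hι hb w N B k t j hk

end good

section input

variable {Γ : Type} [Inhabited Γ]

theorem inp_lt (ι : Bool → Γ) (sep : Γ) (w y : List Bool) (j : ℕ) (h : j < w.length) :
    (w.map ι ++ sep :: y.map ι).getI j = ι w[j] := by
  rw [List.getI_append _ _ _ (by simpa using h), List.getI_eq_getElem _ (by simpa using h)]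
  simp

theorem inp_eq (ι : Bool → Γ) (sep : Γ) (w y : List Bool) :
    (w.map ι ++ sep :: y.map ι).getI w.length = sep := by
  rw [List.getI_append_right _ _ _ (by simp)]
  simp

theorem inp_gt (ι : Bool → Γ) (sep : Γ) (w y : List Bool) (i : ℕ) :
    (w.map ι ++ sep :: y.map ι).getI (w.length + 1 + i) = (y.map ι).getI i := by
  rw [List.getI_append_right _ _ _ (by simp; omega)]
  have : w.length + 1 + i - (w.map ι).length = i + 1 := by simp; omega
  rw [this]
  simp

theorem yget_lt (ι : Bool → Γ) (y : List Bool) (i : ℕ) (h : i < y.length) :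
    (y.map ι).getI i = ι y[i] := by
  rw [List.getI_eq_getElem _ (by simpa using h)]
  simp

theorem yget_ge (ι : Bool → Γ) (y : List Bool) (i : ℕ) (h : y.length ≤ i) :
    (y.map ι).getI i = default := by
  rw [List.getI_eq_default _ (by simpa using h)]

end input

section forward

variable {Γ Λ : Type} [Inhabited Γ] [Inhabited Λ]

open Classical in
/-- the truth value of a variable in a run -/
noncomputable def val (M : TM0.Machine Γ Λ) (c₀ : TM0.Cfg Γ Λ) (v : VK Γ Λ) (t j : ℕ) : Bool :=
  match v with
  | .inl p => decide (((sm M)^[t] c₀).q = p)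
  | .inr (true, a) => decide (Rs ((sm M)^[t] c₀).Tape j = a)
  | .inr (false, a) => decide (Ls ((sm M)^[t] c₀).Tape j = a)

theorem val_st (M : TM0.Machine Γ Λ) (c₀ : TM0.Cfg Γ Λ) (p : Λ) (t j : ℕ) :
    val M c₀ (.inl p) t j = true ↔ ((sm M)^[t] c₀).q = p := by
  simp [val]

theorem val_st' (M : TM0.Machine Γ Λ) (c₀ : TM0.Cfg Γ Λ) (p : Λ) (t j : ℕ) :
    val M c₀ (.inl p) t j = false ↔ ¬ ((sm M)^[t] c₀).q = p := by
  simp [val]

theorem val_R (M : TM0.Machine Γ Λ) (c₀ : TM0.Cfg Γ Λ) (a : Γ) (t j : ℕ) :
    val M c₀ (.inr (true, a)) t j = true ↔ Rs ((sm M)^[t] c₀).Tape j = a := by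
  simp [val]

theorem val_R' (M : TM0.Machine Γ Λ) (c₀ : TM0.Cfg Γ Λ) (a : Γ) (t j : ℕ) :
    val M c₀ (.inr (true, a)) t j = false ↔ ¬ Rs ((sm M)^[t] c₀).Tape j = a := by
  simp [val]

theorem val_L (M : TM0.Machine Γ Λ) (c₀ : TM0.Cfg Γ Λ) (a : Γ) (t j : ℕ) :
    val M c₀ (.inr (false, a)) t j = true ↔ Ls ((sm M)^[t] c₀).Tape j = a := by
  simp [val]

theorem val_L' (M : TM0.Machine Γ Λ) (c₀ : TM0.Cfg Γ Λ) (a : Γ) (t j : ℕ) :
    val M c₀ (.inr (false, a)) t j = false ↔ ¬ Ls ((sm M)^[t] c₀).Tape j = a := by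
  simp [val]

theorem iter_succ (M : TM0.Machine Γ Λ) (c₀ : TM0.Cfg Γ Λ) (t : ℕ) :
    (sm M)^[t + 1] c₀ =
      ⟨(nx M ((sm M)^[t] c₀).q (Rs ((sm M)^[t] c₀).Tape 0)).1,
        mvT (nx M ((sm M)^[t] c₀).q (Rs ((sm M)^[t] c₀).Tape 0)).2 ((sm M)^[t] c₀).Tape⟩ := by
  rw [Function.iterate_succ_apply']
  exact sm_eq M _ _

theorem forward_aux (M : TM0.Machine Γ Λ) (ι : Bool → Γ) (sep : Γ) (acc : Λ → Bool)
    (hb : ∀ b, ι b ≠ default)
    (w y : List Bool) (N m : ℕ) (hy : y.length ≤ m)
    (hacc : acc ((sm M)^[N - 1] (TM0.init (w.map ι ++ sep :: y.map ι))).q = true)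
    (k : CK Γ Λ) (t j : Fin N) (hk : actOf M acc k (upat w N (w.length + 1 + m) (t, j)) = true) :
    ∃ l ∈ litsOf M ι sep k, val M (TM0.init (w.map ι ++ sep :: y.map ι)) l.var
      (resolve l.ot t).val (resolve l.oj j).val = l.sgn := by
  have ht : t.val < N := t.isLt
  have hj : j.val < N := j.isLt
  cases k with
  | iSt =>
    have h0 : t.val = 0 := by simpa [actOf, upat] using hk
    simp [litsOf, val_st, res_same, h0, TM0.init]
  | iL =>
    have h0 : t.val = 0 := by simpa [actOf, upat] using hk
    simp [litsOf, lL, val_L, res_same, h0, Ls_init]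
  | iIn b =>
    replace hk : (decide (t.val = 0) && decide (symAt w j.val = some (some b))) = true := hk
    have h0 : t.val = 0 ∧ symAt w j.val = some (some b) := by simpa using hk
    obtain ⟨h0, h1⟩ := h0
    have h2 : ∃ h : j.val < w.length, w[j.val] = b := by
      unfold symAt at h1
      split_ifs at h1 with h3
      · refine ⟨h3, ?_⟩
        simpa [List.getElem?_eq_getElem h3] using h1
      · simp at h1
    obtain ⟨h2, h3⟩ := h2
    simp [litsOf, lR, val_R, res_same, h0, Rs_init, inp_lt ι sep w y j.val h2, h3]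
  | iSep =>
    replace hk : (decide (t.val = 0) && decide (symAt w j.val = some none)) = true := hk
    have h0 : t.val = 0 ∧ symAt w j.val = some none := by simpa using hk
    obtain ⟨h0, h1⟩ := h0
    have h2 : j.val = w.length := by
      unfold symAt at h1
      split_ifs at h1 with h3 h4
      · simp [List.getElem?_eq_getElem h3] at h1
      · exact h4
    simp [litsOf, lR, val_R, res_same, h0, Rs_init, h2, inp_eq]
  | iCh =>
    replace hk : (decide (t.val = 0) && decide (symAt w j.val = none)) = true := hk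
    have h0 : t.val = 0 ∧ symAt w j.val = none := by simpa using hk
    obtain ⟨h0, h1⟩ := h0
    have h2 : ∃ i, j.val = w.length + 1 + i := by
      unfold symAt at h1
      split_ifs at h1 with h3 h4
      exact ⟨j.val - w.length - 1, by omega⟩
    obtain ⟨i, hi⟩ := h2
    have h3 : (y.map ι).getI i = ι true ∨ (y.map ι).getI i = ι false ∨
        (y.map ι).getI i = default := by
      by_cases h : i < y.length
      · rw [yget_lt ι y i h]
        cases y[i] <;> simp
      · right; right
        exact yget_ge ι y i (by omega)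
    simp [litsOf, lR, val_R, res_same, h0, Rs_init, hi, inp_gt, h3]
  | iMono =>
    replace hk : ((decide (t.val = 0) && decide (symAt w j.val = none)) &&
      !decide (j.val + 1 = N)) = true := hk
    have h0 : (t.val = 0 ∧ symAt w j.val = none) ∧ ¬ j.val + 1 = N := by
      simpa using hk
    obtain ⟨⟨h0, h1⟩, h5⟩ := h0
    have h2 : ∃ i, j.val = w.length + 1 + i := by
      unfold symAt at h1
      split_ifs at h1 with h3 h4
      exact ⟨j.val - w.length - 1, by omega⟩
    obtain ⟨i, hi⟩ := h2
    have e : w.length + 1 + i + 1 = w.length + 1 + (i + 1) := by omega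
    have h3 : ¬ (y.map ι).getI i = default ∨ (y.map ι).getI (i + 1) = default := by
      by_cases h : i < y.length
      · left
        rw [yget_lt ι y i h]
        exact hb _
      · right
        exact yget_ge ι y (i + 1) (by omega)
    simp [litsOf, lR, val_R, val_R', res_same, h0, Rs_init, hi, inp_gt, h3, res_next_ne j h5, e]
  | iB =>
    replace hk : (decide (t.val = 0) && decide (j.val = w.length + 1 + m)) = true := hk
    have h0 : t.val = 0 ∧ j.val = w.length + 1 + m := by simpa using hk
    obtain ⟨h0, h1⟩ := h0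
    simp [litsOf, lR, val_R, res_same, h0, Rs_init, h1, inp_gt, yget_ge ι y m hy]
  | tSt q a =>
    replace hk : (!decide (t.val + 1 = N) && decide (j.val = 0)) = true := hk
    have h0 : ¬ t.val + 1 = N ∧ j.val = 0 := by simpa using hk
    obtain ⟨h0, h1⟩ := h0
    simp only [litsOf, lS, lH, List.mem_cons, List.not_mem_nil, or_false, exists_eq_or_imp,
      exists_eq_left, val_st, val_st', val_R', res_zero, res_same, res_next_ne t h0, iter_succ]
    grind
  | tHd q a =>
    replace hk : ((!decide (t.val + 1 = N) && decide (j.val = 0)) &&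
      !decide (j.val + 1 = N)) = true := hk
    have h0 : (¬ t.val + 1 = N ∧ j.val = 0) ∧ ¬ j.val + 1 = N := by simpa using hk
    obtain ⟨⟨h0, h1⟩, h2⟩ := h0
    rcases h : (nx M q a).2 with a' | _ | _ <;>
    simp only [litsOf, lS, lH, lR, lL, List.mem_cons, List.not_mem_nil, or_false,
      exists_eq_or_imp, h,
      exists_eq_left, val_st', val_R', val_R, val_L, res_zero, res_same,
      res_next_ne t h0, res_next_ne j h2, iter_succ, h1]
    · by_cases e1 : ((sm M)^[t.val] (TM0.init (w.map ι ++ sep :: y.map ι))).q = q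
      · by_cases e2 : Rs ((sm M)^[t.val] (TM0.init (w.map ι ++ sep :: y.map ι))).Tape 0 = a
        · right; right
          rw [e1, e2, h, Rs_stay_zero]
        · exact Or.inr (Or.inl e2)
      · exact Or.inl e1
    · by_cases e1 : ((sm M)^[t.val] (TM0.init (w.map ι ++ sep :: y.map ι))).q = q
      · by_cases e2 : Rs ((sm M)^[t.val] (TM0.init (w.map ι ++ sep :: y.map ι))).Tape 0 = a
        · right; right
          rw [e1, e2, h, Ls_right_zero, e2]
        · exact Or.inr (Or.inl e2)
      · exact Or.inl e1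
    · by_cases e1 : ((sm M)^[t.val] (TM0.init (w.map ι ++ sep :: y.map ι))).q = q
      · by_cases e2 : Rs ((sm M)^[t.val] (TM0.init (w.map ι ++ sep :: y.map ι))).Tape 0 = a
        · right; right
          rw [e1, e2, h, Rs_left_succ, e2]
        · exact Or.inr (Or.inl e2)
      · exact Or.inl e1
  | tR q a b =>
    rcases h : (nx M q a).2 with a' | _ | _
    · replace hk : (!decide (t.val + 1 = N) && (match (nx M q a).2 with
        | .stay _ => !decide (j.val = 0)
        | .right => !decide (j.val + 1 = N)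
        | .left => !decide (j.val = 0) && !decide (j.val + 1 = N))) = true := hk
      rw [h] at hk
      have h0 : ¬ t.val + 1 = N ∧ ¬ j.val = 0 := by simpa using hk
      obtain ⟨h0, h1⟩ := h0
      obtain ⟨i, hi⟩ := Nat.exists_eq_succ_of_ne_zero h1
      simp only [litsOf, lS, lH, lR, List.mem_cons, List.not_mem_nil, or_false,
        exists_eq_or_imp, h, exists_eq_left, val_st', val_R', val_R, res_zero, res_same,
        res_next_ne t h0, iter_succ, hi]
      by_cases e1 : ((sm M)^[t.val] (TM0.init (w.map ι ++ sep :: y.map ι))).q = q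
      · by_cases e2 : Rs ((sm M)^[t.val] (TM0.init (w.map ι ++ sep :: y.map ι))).Tape 0 = a
        · right; right
          rw [e1, e2, h, Rs_stay_succ]
          exact (em _).symm
        · exact Or.inr (Or.inl e2)
      · exact Or.inl e1
    · replace hk : (!decide (t.val + 1 = N) && (match (nx M q a).2 with
        | .stay _ => !decide (j.val = 0)
        | .right => !decide (j.val + 1 = N)
        | .left => !decide (j.val = 0) && !decide (j.val + 1 = N))) = true := hk
      rw [h] at hk
      have h0 : ¬ t.val + 1 = N ∧ ¬ j.val + 1 = N := by simpa using hk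
      obtain ⟨h0, h1⟩ := h0
      simp only [litsOf, lS, lH, lR, List.mem_cons, List.not_mem_nil, or_false,
        exists_eq_or_imp, h, exists_eq_left, val_st', val_R', val_R, res_zero, res_same,
        res_next_ne t h0, res_next_ne j h1, iter_succ]
      by_cases e1 : ((sm M)^[t.val] (TM0.init (w.map ι ++ sep :: y.map ι))).q = q
      · by_cases e2 : Rs ((sm M)^[t.val] (TM0.init (w.map ι ++ sep :: y.map ι))).Tape 0 = a
        · right; right
          rw [e1, e2, h, Rs_right]
          exact (em _).symm
        · exact Or.inr (Or.inl e2)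
      · exact Or.inl e1
    · replace hk : (!decide (t.val + 1 = N) && (match (nx M q a).2 with
        | .stay _ => !decide (j.val = 0)
        | .right => !decide (j.val + 1 = N)
        | .left => !decide (j.val = 0) && !decide (j.val + 1 = N))) = true := hk
      rw [h] at hk
      have h0 : ¬ t.val + 1 = N ∧ ¬ j.val = 0 ∧ ¬ j.val + 1 = N := by simpa using hk
      obtain ⟨h0, h1, h2⟩ := h0
      simp only [litsOf, lS, lH, lR, List.mem_cons, List.not_mem_nil, or_false,
        exists_eq_or_imp, h, exists_eq_left, val_st', val_R', val_R, res_zero, res_same,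
        res_next_ne t h0, res_next_ne j h2, iter_succ]
      by_cases e1 : ((sm M)^[t.val] (TM0.init (w.map ι ++ sep :: y.map ι))).q = q
      · by_cases e2 : Rs ((sm M)^[t.val] (TM0.init (w.map ι ++ sep :: y.map ι))).Tape 0 = a
        · right; right
          rw [e1, e2, h, Rs_left_succ]
          exact (em _).symm
        · exact Or.inr (Or.inl e2)
      · exact Or.inl e1
  | tL q a b =>
    rcases h : (nx M q a).2 with a' | _ | _
    · replace hk : (!decide (t.val + 1 = N) && (match (nx M q a).2 with
        | .stay _ => true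
        | .right => !decide (j.val + 1 = N)
        | .left => !decide (j.val + 1 = N))) = true := hk
      rw [h] at hk
      have h0 : ¬ t.val + 1 = N := by simpa using hk
      simp only [litsOf, lS, lH, lL, List.mem_cons, List.not_mem_nil, or_false,
        exists_eq_or_imp, h, exists_eq_left, val_st', val_R', val_L', val_L, res_zero, res_same,
        res_next_ne t h0, iter_succ]
      by_cases e1 : ((sm M)^[t.val] (TM0.init (w.map ι ++ sep :: y.map ι))).q = q
      · by_cases e2 : Rs ((sm M)^[t.val] (TM0.init (w.map ι ++ sep :: y.map ι))).Tape 0 = a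
        · right; right
          rw [e1, e2, h, Ls_stay]
          exact (em _).symm
        · exact Or.inr (Or.inl e2)
      · exact Or.inl e1
    · replace hk : (!decide (t.val + 1 = N) && (match (nx M q a).2 with
        | .stay _ => true
        | .right => !decide (j.val + 1 = N)
        | .left => !decide (j.val + 1 = N))) = true := hk
      rw [h] at hk
      have h0 : ¬ t.val + 1 = N ∧ ¬ j.val + 1 = N := by simpa using hk
      obtain ⟨h0, h1⟩ := h0
      simp only [litsOf, lS, lH, lL, List.mem_cons, List.not_mem_nil, or_false,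
        exists_eq_or_imp, h, exists_eq_left, val_st', val_R', val_L', val_L, res_zero, res_same,
        res_next_ne t h0, res_next_ne j h1, iter_succ]
      by_cases e1 : ((sm M)^[t.val] (TM0.init (w.map ι ++ sep :: y.map ι))).q = q
      · by_cases e2 : Rs ((sm M)^[t.val] (TM0.init (w.map ι ++ sep :: y.map ι))).Tape 0 = a
        · right; right
          rw [e1, e2, h, Ls_right_succ]
          exact (em _).symm
        · exact Or.inr (Or.inl e2)
      · exact Or.inl e1
    · replace hk : (!decide (t.val + 1 = N) && (match (nx M q a).2 with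
        | .stay _ => true
        | .right => !decide (j.val + 1 = N)
        | .left => !decide (j.val + 1 = N))) = true := hk
      rw [h] at hk
      have h0 : ¬ t.val + 1 = N ∧ ¬ j.val + 1 = N := by simpa using hk
      obtain ⟨h0, h1⟩ := h0
      simp only [litsOf, lS, lH, lL, List.mem_cons, List.not_mem_nil, or_false,
        exists_eq_or_imp, h, exists_eq_left, val_st', val_R', val_L', val_L, res_zero, res_same,
        res_next_ne t h0, res_next_ne j h1, iter_succ]
      by_cases e1 : ((sm M)^[t.val] (TM0.init (w.map ι ++ sep :: y.map ι))).q = q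
      · by_cases e2 : Rs ((sm M)^[t.val] (TM0.init (w.map ι ++ sep :: y.map ι))).Tape 0 = a
        · right; right
          rw [e1, e2, h, Ls_left]
          exact (em _).symm
        · exact Or.inr (Or.inl e2)
      · exact Or.inl e1
  | tLR q a b =>
    replace hk : (!decide (t.val + 1 = N) && (match (nx M q a).2 with
        | .stay _ => false
        | .right => false
        | .left => true)) = true := hk
    rcases h : (nx M q a).2 with a' | _ | _
    · rw [h] at hk
      simp at hk
    · rw [h] at hk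
      simp at hk
    · rw [h] at hk
      have h0 : ¬ t.val + 1 = N := by simpa using hk
      simp only [litsOf, lS, lH, lL, lR, List.mem_cons, List.not_mem_nil, or_false,
        exists_eq_or_imp, exists_eq_left, val_st', val_R', val_L', val_R, res_zero, res_same,
        res_next_ne t h0, iter_succ]
      by_cases e1 : ((sm M)^[t.val] (TM0.init (w.map ι ++ sep :: y.map ι))).q = q
      · by_cases e2 : Rs ((sm M)^[t.val] (TM0.init (w.map ι ++ sep :: y.map ι))).Tape 0 = a
        · right; right
          rw [e1, e2, h, Rs_left_zero]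
          exact (em _).symm
        · exact Or.inr (Or.inl e2)
      · exact Or.inl e1
  | fin q =>
    replace hk : (decide (t.val + 1 = N) && !acc q) = true := hk
    have h0 : t.val + 1 = N ∧ acc q = false := by simpa using hk
    obtain ⟨h0, h1⟩ := h0
    have h2 : t.val = N - 1 := by omega
    simp only [litsOf, lS, List.mem_cons, List.not_mem_nil, or_false,
        exists_eq_left, val_st', res_same, h2]
    intro h3
    rw [h3, h1] at hacc
    simp at hacc

theorem forward [Finite Γ] [Finite Λ] (M : TM0.Machine Γ Λ) (ι : Bool → Γ) (sep : Γ)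
    (acc : Λ → Bool) (hb : ∀ b, ι b ≠ default)
    (w y : List Bool) (N m : ℕ) (hy : y.length ≤ m)
    (hacc : acc ((sm M)^[N - 1] (TM0.init (w.map ι ++ sep :: y.map ι))).q = true) :
    (ucnf M ι sep acc).Sat w N (w.length + 1 + m) := by
  refine ⟨fun x => val M (TM0.init (w.map ι ++ sep :: y.map ι)) x.1 x.2.1.val x.2.2.val, ?_⟩
  rintro ⟨⟨k, t, j⟩, hk⟩
  obtain ⟨l, hl, hv⟩ := forward_aux M ι sep acc hb w y N m hy hacc k t j hk
  exact ⟨resL t j l, List.mem_map.2 ⟨l, hl, rfl⟩, hv⟩

end forward

section backward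

variable {Γ Λ : Type} [Inhabited Γ] [Inhabited Λ]

/-- all clauses hold for the assignment `A` -/
def AllC (M : TM0.Machine Γ Λ) (ι : Bool → Γ) (sep : Γ) (acc : Λ → Bool) (w : List Bool)
    (N B : ℕ) (A : VK Γ Λ → ℕ → ℕ → Bool) : Prop :=
  ∀ (k : CK Γ Λ) (t j : Fin N), actOf M acc k (upat w N B (t, j)) = true →
    ∃ l ∈ litsOf M ι sep k, A l.var (resolve l.ot t).val (resolve l.oj j).val = l.sgn

variable {M : TM0.Machine Γ Λ} {ι : Bool → Γ} {sep : Γ} {acc : Λ → Bool} {w : List Bool}
  {N B : ℕ} {A : VK Γ Λ → ℕ → ℕ → Bool}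

theorem AllC.iSt (h : AllC M ι sep acc w N B A) (hN : 0 < N) : A (.inl default) 0 0 = true := by
  have h1 := h .iSt ⟨0, hN⟩ ⟨0, hN⟩ (by simp [actOf, upat])
  simpa [litsOf, res_same, res_zero] using h1

theorem AllC.iL (h : AllC M ι sep acc w N B A) (j : ℕ) (hj : j < N) :
    A (.inr (false, default)) 0 j = true := by
  have h1 := h .iL ⟨0, by omega⟩ ⟨j, hj⟩ (by simp [actOf, upat])
  simpa [litsOf, res_same, res_zero, lL] using h1

theorem AllC.iIn (h : AllC M ι sep acc w N B A) (j : ℕ) (hj : j < N) (hw : j < w.length) :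
    A (.inr (true, ι w[j])) 0 j = true := by
  have h1 := h (.iIn w[j]) ⟨0, by omega⟩ ⟨j, hj⟩ (by
    change (decide (0 = 0) && decide (symAt w j = some (some w[j]))) = true
    simp [symAt, hw])
  simpa [litsOf, res_same, res_zero, lR] using h1

theorem AllC.iSep (h : AllC M ι sep acc w N B A) (hj : w.length < N) :
    A (.inr (true, sep)) 0 w.length = true := by
  have h1 := h .iSep ⟨0, by omega⟩ ⟨w.length, hj⟩ (by
    change (decide (0 = 0) && decide (symAt w w.length = some none)) = true
    simp [symAt])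
  simpa [litsOf, res_same, res_zero, lR] using h1

theorem symAt_gt (w : List Bool) (i : ℕ) : symAt w (w.length + 1 + i) = none := by
  have e1 : ¬ (w.length + 1 + i < w.length) := by omega
  have e2 : ¬ (w.length + 1 + i = w.length) := by omega
  simp only [symAt, e1, e2, if_false]

theorem AllC.iCh (h : AllC M ι sep acc w N B A) (i : ℕ) (hj : w.length + 1 + i < N) :
    A (.inr (true, ι true)) 0 (w.length + 1 + i) = true ∨
    A (.inr (true, ι false)) 0 (w.length + 1 + i) = true ∨
    A (.inr (true, default)) 0 (w.length + 1 + i) = true := by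
  have h1 := h .iCh ⟨0, by omega⟩ ⟨w.length + 1 + i, hj⟩ (by
    change (decide (0 = 0) && decide (symAt w (w.length + 1 + i) = none)) = true
    rw [symAt_gt]
    simp)
  simpa [litsOf, res_same, res_zero, lR] using h1

theorem AllC.iMono (h : AllC M ι sep acc w N B A) (i : ℕ) (hj : w.length + 1 + (i + 1) < N)
    (hi : A (.inr (true, default)) 0 (w.length + 1 + i) = true) :
    A (.inr (true, default)) 0 (w.length + 1 + (i + 1)) = true := by
  have h1 := h .iMono ⟨0, by omega⟩ ⟨w.length + 1 + i, by omega⟩ (by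
    change ((decide (0 = 0) && decide (symAt w (w.length + 1 + i) = none)) &&
      !decide (w.length + 1 + i + 1 = N)) = true
    rw [symAt_gt]
    simp
    omega)
  have h2 : (resolve .next (⟨w.length + 1 + i, by omega⟩ : Fin N)).val =
      w.length + 1 + (i + 1) := res_next_ne _ (by simp; omega)
  simpa [litsOf, res_same, res_zero, lR, h2, hi] using h1

theorem AllC.iB (h : AllC M ι sep acc w N B A) (hj : B < N) :
    A (.inr (true, default)) 0 B = true := by
  have h1 := h .iB ⟨0, by omega⟩ ⟨B, hj⟩ (by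
    change (decide (0 = 0) && decide (B = B)) = true
    simp)
  simpa [litsOf, res_same, res_zero, lR] using h1

theorem AllC.tSt (h : AllC M ι sep acc w N B A) (t : ℕ) (ht : t + 1 < N) (q : Λ) (a : Γ)
    (h1 : A (.inl q) t 0 = true) (h2 : A (.inr (true, a)) t 0 = true) :
    A (.inl (nx M q a).1) (t + 1) 0 = true := by
  have h3 := h (.tSt q a) ⟨t, by omega⟩ ⟨0, by omega⟩ (by
    change (!decide (t + 1 = N) && decide (0 = 0)) = true
    simp
    omega)
  have e : (resolve .next (⟨t, by omega⟩ : Fin N)).val = t + 1 := res_next_ne _ (by simp; omega)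
  simpa [litsOf, res_same, res_zero, lS, lH, e, h1, h2] using h3

theorem AllC.tHd (h : AllC M ι sep acc w N B A) (t : ℕ) (ht : t + 1 < N) (q : Λ) (a : Γ)
    (h1 : A (.inl q) t 0 = true) (h2 : A (.inr (true, a)) t 0 = true) :
    match (nx M q a).2 with
      | .stay a' => A (.inr (true, a')) (t + 1) 0 = true
      | .right => A (.inr (false, a)) (t + 1) 0 = true
      | .left => A (.inr (true, a)) (t + 1) 1 = true := by
  have h3 := h (.tHd q a) ⟨t, by omega⟩ ⟨0, by omega⟩ (by
    change ((!decide (t + 1 = N) && decide (0 = 0)) && !decide (0 + 1 = N)) = true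
    simp
    omega)
  have e : (resolve .next (⟨t, by omega⟩ : Fin N)).val = t + 1 := res_next_ne _ (by simp; omega)
  have e' : (resolve .next (⟨0, by omega⟩ : Fin N)).val = 0 + 1 := res_next_ne _ (by simp; omega)
  rcases h4 : (nx M q a).2 with a' | _ | _ <;>
  simpa [litsOf, res_same, res_zero, lS, lH, lR, lL, e, e', h1, h2, h4] using h3

theorem AllC.tR (h : AllC M ι sep acc w N B A) (t : ℕ) (ht : t + 1 < N) (q : Λ) (a : Γ)
    (h1 : A (.inl q) t 0 = true) (h2 : A (.inr (true, a)) t 0 = true) (b : Γ) (j : ℕ)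
    (hj : j + 1 < N) :
    match (nx M q a).2 with
      | .stay _ => j ≠ 0 → A (.inr (true, b)) t j = true → A (.inr (true, b)) (t + 1) j = true
      | .right => A (.inr (true, b)) t (j + 1) = true → A (.inr (true, b)) (t + 1) j = true
      | .left => j ≠ 0 → A (.inr (true, b)) t j = true →
          A (.inr (true, b)) (t + 1) (j + 1) = true := by
  have h3 := h (.tR q a b) ⟨t, by omega⟩ ⟨j, by omega⟩
  change (!decide (t + 1 = N) && (match (nx M q a).2 with
        | .stay _ => !decide (j = 0)
        | .right => !decide (j + 1 = N)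
        | .left => !decide (j = 0) && !decide (j + 1 = N))) = true → _ at h3
  have e0 : ¬ t + 1 = N := by omega
  have e1 : ¬ j + 1 = N := by omega
  have e : (resolve .next (⟨t, by omega⟩ : Fin N)).val = t + 1 := res_next_ne _ (by simp; omega)
  have e' : (resolve .next (⟨j, by omega⟩ : Fin N)).val = j + 1 := res_next_ne _ (by simp; omega)
  rcases h4 : (nx M q a).2 with a' | _ | _
  · intro h5 h6
    rw [h4] at h3
    have h7 := h3 (by simp [e0, h5])
    simpa [litsOf, res_same, res_zero, lS, lH, lR, lL, e, e', h1, h2, h4, h6] using h7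
  · intro h6
    rw [h4] at h3
    have h7 := h3 (by simp [e0, e1])
    simpa [litsOf, res_same, res_zero, lS, lH, lR, lL, e, e', h1, h2, h4, h6] using h7
  · intro h5 h6
    rw [h4] at h3
    have h7 := h3 (by simp [e0, e1, h5])
    simpa [litsOf, res_same, res_zero, lS, lH, lR, lL, e, e', h1, h2, h4, h6] using h7

theorem AllC.tL (h : AllC M ι sep acc w N B A) (t : ℕ) (ht : t + 1 < N) (q : Λ) (a : Γ)
    (h1 : A (.inl q) t 0 = true) (h2 : A (.inr (true, a)) t 0 = true) (b : Γ) (j : ℕ)
    (hj : j + 1 < N) :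
    match (nx M q a).2 with
      | .stay _ => A (.inr (false, b)) t j = true → A (.inr (false, b)) (t + 1) j = true
      | .right => A (.inr (false, b)) t j = true → A (.inr (false, b)) (t + 1) (j + 1) = true
      | .left => A (.inr (false, b)) t (j + 1) = true → A (.inr (false, b)) (t + 1) j = true := by
  have h3 := h (.tL q a b) ⟨t, by omega⟩ ⟨j, by omega⟩
  change (!decide (t + 1 = N) && (match (nx M q a).2 with
        | .stay _ => true
        | .right => !decide (j + 1 = N)
        | .left => !decide (j + 1 = N))) = true → _ at h3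
  have e0 : ¬ t + 1 = N := by omega
  have e1 : ¬ j + 1 = N := by omega
  have e : (resolve .next (⟨t, by omega⟩ : Fin N)).val = t + 1 := res_next_ne _ (by simp; omega)
  have e' : (resolve .next (⟨j, by omega⟩ : Fin N)).val = j + 1 := res_next_ne _ (by simp; omega)
  rcases h4 : (nx M q a).2 with a' | _ | _ <;>
  · intro h6
    rw [h4] at h3
    have h7 := h3 (by simp [e0, e1])
    simpa [litsOf, res_same, res_zero, lS, lH, lR, lL, e, e', h1, h2, h4, h6] using h7

theorem AllC.tLR (h : AllC M ι sep acc w N B A) (t : ℕ) (ht : t + 1 < N) (q : Λ) (a : Γ)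
    (h1 : A (.inl q) t 0 = true) (h2 : A (.inr (true, a)) t 0 = true) (b : Γ)
    (hm : (nx M q a).2 = .left) (h6 : A (.inr (false, b)) t 0 = true) :
    A (.inr (true, b)) (t + 1) 0 = true := by
  have h3 := h (.tLR q a b) ⟨t, by omega⟩ ⟨0, by omega⟩
  change (!decide (t + 1 = N) && (match (nx M q a).2 with
        | .stay _ => false
        | .right => false
        | .left => true)) = true → _ at h3
  have e0 : ¬ t + 1 = N := by omega
  have e : (resolve .next (⟨t, by omega⟩ : Fin N)).val = t + 1 := res_next_ne _ (by simp; omega)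
  rw [hm] at h3
  have h7 := h3 (by simp [e0])
  simpa [litsOf, res_same, res_zero, lS, lH, lR, lL, e, h1, h2, h6] using h7

theorem AllC.fin (h : AllC M ι sep acc w N B A) (t : ℕ) (ht : t + 1 = N) (q : Λ)
    (h1 : A (.inl q) t 0 = true) : acc q = true := by
  by_contra h2
  have h3 := h (.fin q) ⟨t, by omega⟩ ⟨0, by omega⟩ (by
    change (decide (t + 1 = N) && !acc q) = true
    simp [ht, h2])
  simp [litsOf, res_same, res_zero, lS, h1] at h3

theorem AllC.cert (h : AllC M ι sep acc w N (w.length + 1 + B) A)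
    (hN : w.length + 1 + B < N) : ∃ y : List Bool, y.length ≤ B ∧
      ∀ j < N, A (.inr (true, (w.map ι ++ sep :: y.map ι).getI j)) 0 j = true := by
  classical
  let P : ℕ → Prop := fun i => A (.inr (true, default)) 0 (w.length + 1 + i) = true
  have hP : ∃ i, P i := ⟨B, h.iB hN⟩
  let n := Nat.find hP
  have hn : P n := Nat.find_spec hP
  have hnB : n ≤ B := Nat.find_min' hP (h.iB hN)
  have hlt : ∀ i < n, ¬ P i := fun i hi => Nat.find_min hP hi
  have hge : ∀ k, w.length + 1 + (n + k) < N → P (n + k) := by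
    intro k
    induction k with
    | zero => intro _; exact hn
    | succ k ih =>
      intro hk
      exact h.iMono (n + k) hk (ih (by omega))
  refine ⟨(List.range n).map fun i => A (.inr (true, ι true)) 0 (w.length + 1 + i), by
    simpa using hnB, ?_⟩
  intro j hj
  rcases Nat.lt_trichotomy j w.length with hj1 | hj1 | hj1
  · rw [inp_lt ι sep w _ j hj1]
    exact h.iIn j hj hj1
  · subst hj1
    rw [inp_eq]
    exact h.iSep hj
  · obtain ⟨i, rfl⟩ : ∃ i, j = w.length + 1 + i := ⟨j - w.length - 1, by omega⟩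
    rw [inp_gt]
    by_cases hi : i < n
    · rw [yget_lt _ _ _ (by simpa using hi)]
      have hnot : ¬ A (.inr (true, default)) 0 (w.length + 1 + i) = true := hlt i hi
      have hch := h.iCh i hj
      simp only [List.getElem_map, List.getElem_range]
      rcases h5 : A (.inr (true, ι true)) 0 (w.length + 1 + i) with _ | _
      · rcases hch with h6 | h6 | h6
        · rw [h5] at h6
          exact absurd h6 (by simp)
        · exact h6
        · exact absurd h6 hnot
      · exact h5
    · rw [yget_ge _ _ _ (by simp; omega)]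
      obtain ⟨k, rfl⟩ := Nat.exists_eq_add_of_le (Nat.le_of_not_lt hi)
      exact hge k hj

theorem AllC.run (h : AllC M ι sep acc w N B A) (hN : 0 < N) (l : List Γ)
    (h0 : ∀ j < N, A (.inr (true, l.getI j)) 0 j = true) (t : ℕ) (ht : t < N) :
    A (.inl ((sm M)^[t] (TM0.init l)).q) t 0 = true ∧
    ∀ j, j + t < N →
      A (.inr (true, Rs ((sm M)^[t] (TM0.init l)).Tape j)) t j = true ∧
      A (.inr (false, Ls ((sm M)^[t] (TM0.init l)).Tape j)) t j = true := by
  induction t with
  | zero =>
    refine ⟨h.iSt hN, fun j hj => ⟨?_, ?_⟩⟩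
    · rw [Function.iterate_zero_apply, Rs_init]
      exact h0 j hj
    · rw [Function.iterate_zero_apply, Ls_init]
      exact h.iL j hj
  | succ t ih =>
    obtain ⟨ih1, ih2⟩ := ih (by omega)
    have ihH := (ih2 0 (by omega)).1
    rw [iter_succ]
    set C := (sm M)^[t] (TM0.init l) with hC
    refine ⟨h.tSt t ht _ _ ih1 ihH, ?_⟩
    have hHd := h.tHd t ht _ _ ih1 ihH
    have hR := h.tR t ht _ _ ih1 ihH
    have hL := h.tL t ht _ _ ih1 ihH
    have hLR := h.tLR t ht _ _ ih1 ihH
    rcases hm : (nx M C.q (Rs C.Tape 0)).2 with a' | _ | _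
    · simp only [hm] at hHd hR hL
      intro j hj
      refine ⟨?_, ?_⟩
      · rcases Nat.eq_zero_or_pos j with hj0 | hj0
        · subst hj0
          rw [Rs_stay_zero]
          exact hHd
        · obtain ⟨i, rfl⟩ := Nat.exists_eq_succ_of_ne_zero hj0.ne'
          rw [Nat.succ_eq_add_one, Rs_stay_succ]
          exact hR _ (i + 1) (by omega) (by omega) (ih2 (i + 1) (by omega)).1
      · rw [Ls_stay]
        exact hL _ j (by omega) (ih2 j (by omega)).2
    · simp only [hm] at hHd hR hL
      intro j hj
      refine ⟨?_, ?_⟩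
      · rw [Rs_right]
        exact hR _ j (by omega) (ih2 (j + 1) (by omega)).1
      · rcases Nat.eq_zero_or_pos j with hj0 | hj0
        · subst hj0
          rw [Ls_right_zero]
          exact hHd
        · obtain ⟨i, rfl⟩ := Nat.exists_eq_succ_of_ne_zero hj0.ne'
          rw [Nat.succ_eq_add_one, Ls_right_succ]
          exact hL _ i (by omega) (ih2 i (by omega)).2
    · simp only [hm] at hHd hR hL
      intro j hj
      refine ⟨?_, ?_⟩
      · rcases Nat.eq_zero_or_pos j with hj0 | hj0
        · subst hj0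
          rw [Rs_left_zero]
          exact hLR _ hm (ih2 0 (by omega)).2
        · obtain ⟨i, rfl⟩ := Nat.exists_eq_succ_of_ne_zero hj0.ne'
          rw [Nat.succ_eq_add_one, Rs_left_succ]
          rcases Nat.eq_zero_or_pos i with hi0 | hi0
          · subst hi0
            exact hHd
          · exact hR _ i (by omega) (by omega) (ih2 i (by omega)).1
      · rw [Ls_left]
        exact hL _ j (by omega) (ih2 (j + 1) (by omega)).2

theorem backward [Finite Γ] [Finite Λ] (M : TM0.Machine Γ Λ) (ι : Bool → Γ) (sep : Γ)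
    (acc : Λ → Bool) (w : List Bool) (N m : ℕ) (hN : w.length + 1 + m < N)
    (hS : (ucnf M ι sep acc).Sat w N (w.length + 1 + m)) :
    ∃ y : List Bool, y.length ≤ m ∧
      acc ((sm M)^[N - 1] (TM0.init (w.map ι ++ sep :: y.map ι))).q = true := by
  obtain ⟨α, hα⟩ := hS
  have h : AllC M ι sep acc w N (w.length + 1 + m)
      (fun v t j => if h : t < N ∧ j < N then α (v, ⟨t, h.1⟩, ⟨j, h.2⟩) else false) := by
    intro k t j hk
    obtain ⟨x, hx, hx'⟩ := hα ⟨⟨k, t, j⟩, hk⟩
    obtain ⟨l, hl, rfl⟩ := List.mem_map.1 hx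
    refine ⟨l, hl, ?_⟩
    have hlt : (resolve l.ot t).val < N ∧ (resolve l.oj j).val < N :=
      ⟨(resolve l.ot t).isLt, (resolve l.oj j).isLt⟩
    exact (dif_pos hlt).trans hx'
  obtain ⟨y, hy, hy'⟩ := h.cert hN
  refine ⟨y, hy, ?_⟩
  exact h.fin (N - 1) (by omega) _ (h.run (by omega) _ hy' (N - 1) (by omega)).1

end backward

end CookLev

open CookLev Turing in
/-- **Cook-Levin**, with uniform clauses. -/
theorem cook_levin (A : Set (List Bool)) (hA : InNP A) :
    ∃ (U : UCNF) (a b c d : ℕ), ∀ w : List Bool,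
      0 < a * (w.length + 1) ^ b ∧
      GoodLits (U.ilits w (a * (w.length + 1) ^ b) (w.length + 1 + c * (w.length + 1) ^ d)) ∧
      (w ∈ A ↔ U.Sat w (a * (w.length + 1) ^ b) (w.length + 1 + c * (w.length + 1) ^ d)) := by
  obtain ⟨Γ, Λ, iΓ, iΛ, fΓ, fΛ, ι, sep, M, acc, c, d, hinj, hdef, hsep, hsd, hhalt, hacc⟩ := hA
  refine ⟨ucnf M ι sep acc, c * (c + 1) ^ d + c + 3, (d + 1) * (d + 1), c, d, fun w => ?_⟩
  set x := w.length + 1 with hx
  have hx1 : 1 ≤ x := by omega
  set N := (c * (c + 1) ^ d + c + 3) * x ^ ((d + 1) * (d + 1)) with hN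
  have hN0 : 0 < N := by positivity
  refine ⟨hN0, goodLits M ι sep acc hinj hdef w N _, ?_⟩
  -- bounds
  have hp1 : x ^ (d + 1) ≤ x ^ ((d + 1) * (d + 1)) := Nat.pow_le_pow_right hx1 (by nlinarith)
  have hp2 : x ^ ((d + 1) * d) ≤ x ^ ((d + 1) * (d + 1)) := Nat.pow_le_pow_right hx1 (by nlinarith)
  have hp3 : x ^ d ≤ x ^ (d + 1) := Nat.pow_le_pow_right hx1 (by omega)
  have hp4 : x ≤ x ^ (d + 1) := by
    calc x = x ^ 1 := (pow_one x).symm
      _ ≤ x ^ (d + 1) := Nat.pow_le_pow_right hx1 (by omega)
  have hp5 : 1 ≤ x ^ ((d + 1) * (d + 1)) := Nat.one_le_pow _ _ hx1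
  set X := x ^ ((d + 1) * (d + 1)) with hX
  have hB : x + c * x ^ d + 2 ≤ (c + 3) * X := by
    have e1 : c * x ^ d ≤ c * X := Nat.mul_le_mul_left c (hp3.trans hp1)
    have e2 : x ≤ X := hp4.trans hp1
    have e3 : (c + 3) * X = c * X + X + X + X := by ring
    omega
  have hNX : N = c * (c + 1) ^ d * X + (c + 3) * X := by rw [hN]; ring
  have htime : ∀ y : List Bool, y.length ≤ c * x ^ d →
      c * (w.length + y.length + 1) ^ d ≤ N - 1 := by
    intro y hy
    have e1 : w.length + y.length + 1 ≤ (c + 1) * x ^ (d + 1) := by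
      have e2 : c * x ^ d ≤ c * x ^ (d + 1) := Nat.mul_le_mul_left c hp3
      have e3 : (c + 1) * x ^ (d + 1) = c * x ^ (d + 1) + x ^ (d + 1) := by ring
      omega
    have e4 : c * (w.length + y.length + 1) ^ d ≤ c * ((c + 1) * x ^ (d + 1)) ^ d :=
      Nat.mul_le_mul_left c (Nat.pow_le_pow_left e1 d)
    have e5 : c * ((c + 1) * x ^ (d + 1)) ^ d = c * (c + 1) ^ d * x ^ ((d + 1) * d) := by
      rw [mul_pow, ← pow_mul]; ring
    have e6 : c * (c + 1) ^ d * x ^ ((d + 1) * d) ≤ c * (c + 1) ^ d * X :=
      Nat.mul_le_mul_left _ hp2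
    omega
  have hBN : w.length + 1 + c * x ^ d < N := by
    have : x = w.length + 1 := hx
    omega
  rw [hacc]
  constructor
  · rintro ⟨y, hy, t, cf, hrun, hst, hac⟩
    obtain ⟨t', ht', cf', hrun', hst'⟩ := hhalt w y
    have e1 := iter_sm_late M _ t cf hrun hst (max t t') (le_max_left _ _)
    have e2 := iter_sm_late M _ t' cf' hrun' hst' (max t t') (le_max_right _ _)
    have e3 : cf' = cf := by rw [← e1, ← e2]
    have e4 := iter_sm_late M _ t' cf' hrun' hst' (N - 1) (ht'.trans (htime y hy))
    refine forward M ι sep acc hdef w y N (c * x ^ d) hy ?_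
    rw [e4, e3]
    exact hac
  · intro hS
    obtain ⟨y, hy, hy'⟩ := backward M ι sep acc w N (c * x ^ d) hBN hS
    obtain ⟨t', ht', cf', hrun', hst'⟩ := hhalt w y
    refine ⟨y, hy, t', cf', hrun', hst', ?_⟩
    have e4 := iter_sm_late M _ t' cf' hrun' hst' (N - 1) (ht'.trans (htime y hy))
    rw [← e4]
    exact hy'

end Pool.Agent.helper64.LP
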